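import Pool.Agent.X316.CC.Sec

/-!
# MP_87683a_ag, Q1: a curve parameterizable by cubics that is not a cubic Cremona image of a
monoid curve

Let `K` be an algebraically closed field of characteristic different from `3`. We exhibit a plane
curve (of degree at least `8`) which is parameterizable by cubics, but which is not of the form
`closure (Λ (C₀))` with `Λ` a birational map of the plane whose inverse is given by cubic forms
and `C₀` a curve parameterizable by lines with a singular point at `(0:0:1)`.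

Points of `ℙ²` and `ℙ¹` are given by nonzero vectors, up to proportionality.
-/

set_option autoImplicit false

open MvPolynomial

namespace Pool.Agent.Results.MP_87683a_ag.CubicPencilNotCremona

variable {K : Type*} [Field K]

/-- two nonzero vectors define the same point of a projective space -/
def SamePoint {n : ℕ} (v w : Fin n → K) : Prop := ∃ c : K, c ≠ 0 ∧ w = c • v

/-- the vector of values of a tuple of forms at `x` -/
noncomputable def val {n k : ℕ} (F : Fin k → MvPolynomial (Fin n) K) (x : Fin n → K) : Fin k → K :=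
  fun i => eval x (F i)

/-- `E` is the equation of a plane curve: it is homogeneous and irreducible -/
def IsPlaneCurve (E : MvPolynomial (Fin 3) K) : Prop := (∃ m, E.IsHomogeneous m) ∧ Irreducible E

/-- The curve `E = 0` is parameterizable by `F = (F 0, F 1)`, forms of degree `d` without common
factor: the rational map `ψ = (F 0 : F 1)` from the curve to `ℙ¹` is birational, with inverse
`t ↦ (u 0 (t) : u 1 (t) : u 2 (t))`, where the `u i` are forms of the same degree without common
zero on `ℙ¹` (i.e. without common factor). -/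
structure IsParam (E : MvPolynomial (Fin 3) K) (d : ℕ) (F : Fin 2 → MvPolynomial (Fin 3) K)
    (u : Fin 3 → MvPolynomial (Fin 2) K) : Prop where
  F_hom : ∀ i, (F i).IsHomogeneous d
  F_rel : IsRelPrime (F 0) (F 1)
  u_hom : ∃ n, ∀ i, (u i).IsHomogeneous n
  u_base : ∀ t : Fin 2 → K, t ≠ 0 → val u t ≠ 0
  /-- `u` maps `ℙ¹` to the curve -/
  u_mem : ∀ t, eval (val u t) E = 0
  /-- `ψ` is defined at some point of the curve -/
  defined : ∃ x, x ≠ 0 ∧ eval x E = 0 ∧ val F x ≠ 0
  /-- `u ∘ ψ = id` on the curve -/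
  right_inv : ∀ x, x ≠ 0 → eval x E = 0 → val F x ≠ 0 → SamePoint x (val u (val F x))
  /-- `ψ ∘ u = id` on `ℙ¹` -/
  left_inv : ∀ t, t ≠ 0 → val F (val u t) ≠ 0 → SamePoint t (val F (val u t))

/-- the curve `E = 0` is parameterizable by forms of degree `d` -/
def Parameterizable (E : MvPolynomial (Fin 3) K) (d : ℕ) : Prop := ∃ F u, IsParam E d F u

/-- `H` and `G` define rational maps of the plane inverse to each other, and `G` is given by three
cubic forms. (`Λ` is given by `H`, its inverse by `G`.) -/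
structure IsBirational (H G : Fin 3 → MvPolynomial (Fin 3) K) : Prop where
  G_hom : ∀ i, (G i).IsHomogeneous 3
  H_hom : ∃ h, ∀ i, (H i).IsHomogeneous h
  G_H : ∃ W : MvPolynomial (Fin 3) K, W ≠ 0 ∧ ∀ i, aeval H (G i) = W * X i
  H_G : ∃ W : MvPolynomial (Fin 3) K, W ≠ 0 ∧ ∀ i, aeval G (H i) = W * X i

/-- the image of the curve `E₀ = 0` under the rational map given by `H` -/
def image (H : Fin 3 → MvPolynomial (Fin 3) K) (E₀ : MvPolynomial (Fin 3) K) : Set (Fin 3 → K) :=
  {z | ∃ y, y ≠ 0 ∧ eval y E₀ = 0 ∧ val H y ≠ 0 ∧ z = val H y}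

/-- `x` lies in the Zariski closure of `S`: every form vanishing on `S` vanishes at `x` -/
def InClosure (S : Set (Fin 3 → K)) (x : Fin 3 → K) : Prop :=
  ∀ (P : MvPolynomial (Fin 3) K) (k : ℕ), P.IsHomogeneous k → (∀ y ∈ S, eval y P = 0) →
    eval x P = 0

/-- the curve `E = 0` belongs to the set `𝒮`: it is the closure of `Λ(C₀)` for a birational map `Λ`
whose inverse is given by cubic forms and a curve `C₀` parameterizable by lines and singular
at `(0:0:1)` -/
def InS (E : MvPolynomial (Fin 3) K) : Prop :=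
  ∃ H G : Fin 3 → MvPolynomial (Fin 3) K, IsBirational H G ∧
    ∃ E₀ : MvPolynomial (Fin 3) K, IsPlaneCurve E₀ ∧ Parameterizable E₀ 1 ∧
      (eval ![0, 0, 1] E₀ = 0 ∧ ∀ i, eval ![0, 0, 1] (pderiv i E₀) = 0) ∧
      ∀ x, x ≠ 0 → (eval x E = 0 ↔ InClosure (image H E₀) x)

/-! ### Composition lemmas -/

theorem aeval_comp {σ τ A : Type*} [CommRing A] [Algebra K A] (f : σ → MvPolynomial τ K)
    (g : τ → A) (P : MvPolynomial σ K) :
    aeval g (aeval f P) = aeval (fun i => aeval g (f i)) P := by
  have : (aeval g).comp (aeval f) = (aeval (fun i => aeval g (f i)) : MvPolynomial σ K →ₐ[K] A) := by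
    apply MvPolynomial.algHom_ext
    intro i
    simp
  exact congrArg (fun φ : MvPolynomial σ K →ₐ[K] A => φ P) this

theorem eval_aeval {n k : ℕ} (F : Fin k → MvPolynomial (Fin n) K) (x : Fin n → K)
    (P : MvPolynomial (Fin k) K) : eval x (aeval F P) = eval (val F x) P := by
  have := aeval_comp (A := K) F x P
  simp only [aeval_eq_eval] at this
  exact this

theorem eval_cc {σ : Type*} (c : σ → Polynomial K) (t : K) (P : MvPolynomial σ K) :
    (aeval c P).eval t = eval (fun i => (c i).eval t) P := by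
  have : (Polynomial.aeval t).comp (aeval c : MvPolynomial σ K →ₐ[K] Polynomial K) =
      aeval (fun i => (c i).eval t) := by
    apply MvPolynomial.algHom_ext
    intro i
    simp [Polynomial.coe_aeval_eq_eval]
  have h2 := congrArg (fun φ : MvPolynomial σ K →ₐ[K] K => φ P) this
  simp only [AlgHom.comp_apply, Polynomial.coe_aeval_eq_eval] at h2
  rw [h2, aeval_eq_eval]

theorem hom_comp {n k m d : ℕ} {P : MvPolynomial (Fin k) K} (hP : P.IsHomogeneous m)
    {F : Fin k → MvPolynomial (Fin n) K} (hF : ∀ i, (F i).IsHomogeneous d) :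
    (aeval F P).IsHomogeneous (d * m) := hP.aeval F hF

theorem eval_zero_hom {n m : ℕ} {P : MvPolynomial (Fin n) K} (hP : P.IsHomogeneous m) (hm : m ≠ 0) :
    eval (0 : Fin n → K) P = 0 := by
  have := Pool.Agent.X316.CC.hom_eval hP 0 (0 : Fin n → K)
  rw [zero_smul, zero_pow hm, zero_mul] at this
  exact this

theorem not_unit_of_hom_one {n : ℕ} {P : MvPolynomial (Fin n) K} (hP : P.IsHomogeneous 1) :
    ¬ IsUnit P := by
  intro h
  have h1 := h.map (eval (0 : Fin n → K))
  rw [eval_zero_hom hP one_ne_zero] at h1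
  exact not_isUnit_zero h1

theorem lin_comb {l0 l1 : MvPolynomial (Fin 3) K} (h0 : l0.IsHomogeneous 1)
    (h1 : l1.IsHomogeneous 1) (hrel : IsRelPrime l0 l1) (p q : K) (hpq : p ≠ 0 ∨ q ≠ 0) :
    C p * l0 - C q * l1 ≠ 0 := by
  intro h
  rcases hpq with hp | hq
  · have h2 : l1 ∣ l0 := by
      refine ⟨C (q / p), ?_⟩
      have h5 : (C p⁻¹ * C p : MvPolynomial (Fin 3) K) = 1 := by
        rw [← C_mul, inv_mul_cancel₀ hp, C_1]
      rw [div_eq_mul_inv, C_mul]
      linear_combination (C p⁻¹) * h - l0 * h5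
    exact not_unit_of_hom_one h1 (hrel h2 dvd_rfl)
  · have h2 : l0 ∣ l1 := by
      refine ⟨C (p / q), ?_⟩
      have h5 : (C q⁻¹ * C q : MvPolynomial (Fin 3) K) = 1 := by
        rw [← C_mul, inv_mul_cancel₀ hq, C_1]
      rw [div_eq_mul_inv, C_mul]
      linear_combination -(C q⁻¹) * h - l1 * h5
    exact not_unit_of_hom_one h0 (hrel dvd_rfl h2)

/-- the pencil `X₀³ - X₂³, X₁³ - X₂³` -/
noncomputable def pencil : Fin 2 → MvPolynomial (Fin 3) K := ![X 0 ^ 3 - X 2 ^ 3, X 1 ^ 3 - X 2 ^ 3]

theorem pencil_hom (i : Fin 2) : (pencil (K := K) i).IsHomogeneous 3 := by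
  have h : ∀ i : Fin 3, (X i ^ 3 : MvPolynomial (Fin 3) K).IsHomogeneous 3 := fun i => by
    simpa using (isHomogeneous_X K i).pow 3
  fin_cases i
  · exact (h 0).sub (h 2)
  · exact (h 1).sub (h 2)

open Pool.Agent.X316.CC in
/-- the main argument: a curve whose only parametrising pencil of cubics consists of Fermat cubics
does not belong to `𝒮` -/
theorem not_inS [IsAlgClosed K] (h3 : (3 : K) ≠ 0) (cc : Fin 3 → Polynomial K)
    (E : MvPolynomial (Fin 3) K) (hE0 : aeval cc E = 0)
    (hdiv : ∀ (P : MvPolynomial (Fin 3) K) (k : ℕ), P.IsHomogeneous k → aeval cc P = 0 → E ∣ P)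
    (hB : ∀ (P : MvPolynomial (Fin 3) K) (m : ℕ), P.IsHomogeneous m → m < 8 → aeval cc P = 0 →
      P = 0)
    (hne : ∀ t, (fun i => (cc i).eval t) ≠ 0)
    (hF : aeval cc (pencil (K := K) 0) = Polynomial.X * aeval cc (pencil (K := K) 1))
    (hF2 : aeval cc (pencil (K := K) 1) ≠ 0) : ¬ InS E := by
  rintro ⟨H, G, hHG, E₀, hE₀, ⟨l, v, hp⟩, -, hcl⟩
  obtain ⟨h, hH⟩ := hHG.H_hom
  obtain ⟨W1, hW1, hGH⟩ := hHG.G_H
  obtain ⟨W2, hW2, hHG'⟩ := hHG.H_G
  obtain ⟨n, hn⟩ := hp.u_hom
  obtain ⟨m0, hm0⟩ := hE₀.1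
  have hl0 := hp.F_hom 0
  have hl1 := hp.F_hom 1
  have hptE : ∀ t, eval (fun i => (cc i).eval t) E = 0 := by
    intro t
    rw [← eval_cc, hE0, Polynomial.eval_zero]
  obtain ⟨y, hy⟩ : ∃ y : Fin 3 → Polynomial K, y = fun i => aeval cc (G i) := ⟨_, rfl⟩
  have hyev : ∀ t, (fun i => (y i).eval t) = val G (fun i => (cc i).eval t) := by
    intro t
    funext i
    rw [hy]
    exact eval_cc _ _ _
  have hGne : ∀ i, G i ≠ 0 := by
    intro i h0
    have := hGH i
    rw [h0, map_zero] at this
    exact mul_ne_zero hW1 (X_ne_zero i) this.symm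
  have hyne : ∀ i, y i ≠ 0 := by
    intro i h0
    rw [hy] at h0
    exact hGne i (hB _ 3 (hHG.G_hom i) (by norm_num) h0)
  have hval : ∀ w, val G (val H w) = eval w W1 • w := by
    intro w
    funext i
    show eval (val H w) (G i) = _
    rw [← eval_aeval, hGH i, map_mul, eval_X]
    rfl
  have hyE0 : ∀ t, eval (fun i => (y i).eval t) E₀ = 0 := by
    intro t
    rw [hyev]
    have h1 := (hcl _ (hne t)).1 (hptE t) (aeval G E₀) (3 * m0) (hom_comp hm0 hHG.G_hom) (by
      rintro z ⟨w, hw0, hwE, hHw, rfl⟩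
      rw [eval_aeval, hval, hom_eval hm0, hwE, mul_zero])
    rwa [eval_aeval] at h1
  -- the pencil of lines
  obtain ⟨N, hN⟩ : ∃ N : Fin 2 → Polynomial K, N = fun k => aeval y (l k) := ⟨_, rfl⟩
  have hNg : ∀ k, N k = aeval cc (aeval G (l k)) := by
    intro k
    rw [hN, aeval_comp, hy]
  have hHGl : ∀ k, aeval H (aeval G (l k)) = W1 * l k := by
    intro k
    rw [aeval_comp]
    have : (fun i => aeval H (G i)) = fun i => W1 * X i := by
      funext i
      exact hGH i
    rw [this, hom_aeval (hp.F_hom k), pow_one, aeval_X_left_apply]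
  have hlne : ∀ k, l k ≠ 0 := by
    intro k hk
    have h4 := lin_comb hl0 hl1 hp.F_rel
    fin_cases k
    · apply h4 1 0 (Or.inl one_ne_zero)
      have : l 0 = 0 := hk
      rw [this]
      simp
    · apply h4 0 1 (Or.inr one_ne_zero)
      have : l 1 = 0 := hk
      rw [this]
      simp
  have hgne : ∀ k, aeval G (l k) ≠ 0 := by
    intro k h0
    have := hHGl k
    rw [h0, map_zero] at this
    exact mul_ne_zero hW1 (hlne k) this.symm
  have hghom : ∀ k, (aeval G (l k)).IsHomogeneous 3 := fun k => hom_comp (hp.F_hom k) hHG.G_hom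
  have hNne : ∀ k, N k ≠ 0 := by
    intro k h0
    rw [hNg] at h0
    exact hgne k (hB _ 3 (hghom k) (by norm_num) h0)
  obtain ⟨V, hV⟩ : ∃ V : Fin 3 → Polynomial K, V = fun i => aeval N (v i) := ⟨_, rfl⟩
  have hNev : ∀ t, (fun k => (N k).eval t) = val l (fun i => (y i).eval t) := by
    intro t
    funext k
    rw [hN]
    exact eval_cc _ _ _
  have hVev : ∀ t, (fun i => (V i).eval t) = val v (fun k => (N k).eval t) := by
    intro t
    funext i
    rw [hV]
    exact eval_cc _ _ _
  have hcross : ∀ i j, y i * V j = y j * V i := by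
    intro i j
    have h0 : N 0 * (y i * V j - y j * V i) = 0 := by
      apply Polynomial.funext
      intro t
      rw [Polynomial.eval_mul, Polynomial.eval_zero]
      by_cases hN0 : (N 0).eval t = 0
      · rw [hN0, zero_mul]
      · have hvl : val l (fun i => (y i).eval t) ≠ 0 := by
          rw [← hNev]
          intro h1
          exact hN0 (congrFun h1 0)
        have hy0 : (fun i => (y i).eval t) ≠ 0 := by
          intro h1
          apply hvl
          rw [h1]
          funext k
          exact eval_zero_hom (hp.F_hom k) one_ne_zero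
        obtain ⟨c, -, hc⟩ := hp.right_inv _ hy0 (hyE0 t) hvl
        rw [← hNev, ← hVev] at hc
        have hi := congrFun hc i
        have hj := congrFun hc j
        simp only [Pi.smul_apply, smul_eq_mul] at hi hj
        rw [Polynomial.eval_sub, Polynomial.eval_mul, Polynomial.eval_mul, hi, hj]
        ring
    exact sub_eq_zero.1 ((mul_eq_zero.1 h0).resolve_left (hNne 0))
  have hV0 : V 0 ≠ 0 := by
    obtain ⟨t, ht⟩ : ∃ t, (N 0).eval t ≠ 0 := by
      by_contra hcon
      push Not at hcon
      exact hNne 0 (Polynomial.funext fun t => by rw [hcon t, Polynomial.eval_zero])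
    have h1 : (fun k => (N k).eval t) ≠ 0 := fun h0 => ht (congrFun h0 0)
    have h2 := hp.u_base _ h1
    rw [← hVev] at h2
    obtain ⟨i, hi⟩ : ∃ i, (V i).eval t ≠ 0 := by
      by_contra hcon
      push Not at hcon
      exact h2 (funext hcon)
    intro h0
    have h5 := hcross 0 i
    rw [h0, mul_zero] at h5
    have h6 := (mul_eq_zero.1 h5).resolve_left (hyne 0)
    rw [h6, Polynomial.eval_zero] at hi
    exact hi rfl
  -- the common factor
  have hWcc : aeval cc W2 ≠ 0 := by
    intro h0
    obtain ⟨t, ht⟩ : ∃ t, (y 0).eval t ≠ 0 := by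
      by_contra hcon
      push Not at hcon
      exact hyne 0 (Polynomial.funext fun t => by rw [hcon t, Polynomial.eval_zero])
    obtain ⟨z, hz, hGz⟩ : ∃ z ∈ image H E₀, eval z (G 0) ≠ 0 := by
      by_contra hcon
      push Not at hcon
      have h5 := (hcl _ (hne t)).1 (hptE t) (G 0) 3 (hHG.G_hom 0) hcon
      exact ht ((congrFun (hyev t) 0).trans h5)
    obtain ⟨w, hw0, hwE, hHw, rfl⟩ := hz
    have hzE : eval (val H w) E = 0 := by
      rw [hcl _ hHw]
      intro P k hP hPz
      exact hPz _ ⟨w, hw0, hwE, hHw, rfl⟩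
    have hdv : ∀ i, eval (val H w) (aeval G (H i)) = 0 := by
      intro i
      obtain ⟨R, hR⟩ := hdiv (aeval G (H i)) (3 * h) (hom_comp (hH i) hHG.G_hom) (by
        rw [hHG' i, map_mul, h0, zero_mul])
      rw [hR, map_mul, hzE, zero_mul]
    have hc : eval w W1 ≠ 0 := by
      intro h5
      apply hGz
      have := congrFun (hval w) 0
      rw [h5, zero_smul] at this
      exact this
    apply hHw
    funext i
    have h6 := hdv i
    rw [eval_aeval, hval, hom_eval (hH i)] at h6
    exact (mul_eq_zero.1 h6).resolve_left (pow_ne_zero _ hc)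
  -- recovering the parameter
  obtain ⟨HV, hHV⟩ : ∃ HV : Fin 3 → Polynomial K, HV = fun i => aeval V (H i) := ⟨_, rfl⟩
  have hHVy : ∀ i, y 0 ^ h * HV i = (V 0 ^ h * aeval cc W2) * cc i := by
    intro i
    have e1 : aeval (fun j => y 0 * V j) (H i) = y 0 ^ h * HV i := by
      rw [hHV]
      exact hom_aeval (hH i) (y 0) V
    have e2 : aeval (fun j => y 0 * V j) (H i) = V 0 ^ h * aeval y (H i) := by
      have : (fun j => y 0 * V j) = fun j => V 0 * y j := by
        funext j
        rw [hcross 0 j]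
        ring
      rw [this]
      exact hom_aeval (hH i) (V 0) y
    have e3 : aeval y (H i) = aeval cc W2 * cc i := by
      rw [hy, ← aeval_comp, hHG' i, map_mul, aeval_X]
    rw [← e1, e2, e3]
    ring
  have hFk : ∀ k, (y 0 ^ h) ^ 3 * aeval HV (pencil (K := K) k) =
      (V 0 ^ h * aeval cc W2) ^ 3 * aeval cc (pencil (K := K) k) := by
    intro k
    rw [← hom_aeval (pencil_hom (K := K) k), ← hom_aeval (pencil_hom (K := K) k)]
    congr 2
    funext i
    exact hHVy i
  have hQk : ∀ k, aeval N (aeval v (aeval H (pencil (K := K) k))) = aeval HV (pencil (K := K) k) := by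
    intro k
    rw [aeval_comp, ← hV, aeval_comp, ← hHV]
  have hy3 : (y 0 ^ h) ^ 3 ≠ 0 := pow_ne_zero _ (pow_ne_zero _ (hyne 0))
  have hQ : aeval N (aeval v (aeval H (pencil (K := K) 0))) =
      Polynomial.X * aeval N (aeval v (aeval H (pencil (K := K) 1))) := by
    rw [hQk, hQk]
    apply mul_left_cancel₀ hy3
    rw [hFk 0, hF]
    linear_combination (-Polynomial.X) * hFk 1
  have hQ2 : aeval N (aeval v (aeval H (pencil (K := K) 1))) ≠ 0 := by
    rw [hQk]
    intro h0
    have h5 := hFk 1
    rw [h0, mul_zero] at h5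
    exact mul_ne_zero (pow_ne_zero _ (mul_ne_zero (pow_ne_zero _ hV0) hWcc)) hF2 h5.symm
  have hQhom : ∀ k, (aeval v (aeval H (pencil (K := K) k))).IsHomogeneous (n * (h * 3)) :=
    fun k => hom_comp (hom_comp (pencil_hom (K := K) k) hH) hn
  obtain ⟨α, β, γ, δ, hmob, hαγ, hβδ, hsum⟩ := moebius N (hNne 1) _ _ _ (hQhom 0) (hQhom 1) hQ hQ2
  -- the two pencils coincide
  have hsix : (C γ * pencil 0 + C δ * pencil 1) * aeval G (l 0) -
      (C α * pencil 0 + C β * pencil 1) * aeval G (l 1) = 0 := by
    have hc : ∀ a b : K, (C a * pencil 0 + C b * pencil 1 : MvPolynomial (Fin 3) K).IsHomogeneous 3 := by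
      intro a b
      have h1 := (isHomogeneous_C (Fin 3) a).mul (pencil_hom (K := K) 0)
      have h2 := (isHomogeneous_C (Fin 3) b).mul (pencil_hom (K := K) 1)
      rw [zero_add] at h1 h2
      exact h1.add h2
    apply hB _ 6 (((hc γ δ).mul (hghom 0)).sub ((hc α β).mul (hghom 1))) (by norm_num)
    simp only [map_sub, map_mul, map_add, aeval_C, hF, ← hNg, ← Polynomial.C_eq_algebraMap]
    linear_combination (-(aeval cc (pencil (K := K) 1))) * hmob
  -- a good point
  obtain ⟨ys, hys⟩ : ∃ ys : Fin 3 → K, eval ys (W1 * (C γ * l 0 - C α * l 1) *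
      (C δ * l 0 - C β * l 1) * (C (γ + δ) * l 0 - C (α + β) * l 1)) ≠ 0 := by
    by_contra hcon
    push Not at hcon
    have hz : (W1 * (C γ * l 0 - C α * l 1) *
      (C δ * l 0 - C β * l 1) * (C (γ + δ) * l 0 - C (α + β) * l 1)) = 0 :=
      MvPolynomial.funext fun x => by rw [hcon x, map_zero]
    exact mul_ne_zero (mul_ne_zero (mul_ne_zero hW1
      (lin_comb hl0 hl1 hp.F_rel γ α hαγ.symm)) (lin_comb hl0 hl1 hp.F_rel δ β hβδ.symm))
      (lin_comb hl0 hl1 hp.F_rel (γ + δ) (α + β) hsum.symm) hz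
  obtain ⟨e, he, he0, he1⟩ := common_zero hl0 hl1
  obtain ⟨p, hpd⟩ : ∃ p, p = eval ys (l 0) := ⟨_, rfl⟩
  obtain ⟨q, hqd⟩ : ∃ q, q = eval ys (l 1) := ⟨_, rfl⟩
  simp only [map_mul, map_sub, eval_C, ← hpd, ← hqd, mul_ne_zero_iff] at hys
  obtain ⟨⟨⟨hW, hA⟩, hBn⟩, hAB⟩ := hys
  -- the line through the point
  obtain ⟨z, hz⟩ : ∃ z : Fin 3 → Polynomial K, z = fun i =>
    Polynomial.C (ys i) + Polynomial.C (e i) * Polynomial.X := ⟨_, rfl⟩
  have hlz : ∀ k, aeval z (l k) = Polynomial.C (eval ys (l k)) := by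
    intro k
    have hek : eval e (l k) = 0 := by
      fin_cases k
      · exact he0
      · exact he1
    rw [← aeval_eq_eval, aeval_hom_one (hp.F_hom k)] at hek
    rw [← aeval_eq_eval, aeval_hom_one (hp.F_hom k), aeval_hom_one (hp.F_hom k), hz]
    simp only [Algebra.algebraMap_self, RingHom.id_apply] at hek ⊢
    rw [Fin.sum_univ_three] at hek ⊢
    rw [Fin.sum_univ_three]
    simp only [← Polynomial.C_eq_algebraMap, Polynomial.C_add, Polynomial.C_mul]
    have h5 := congrArg (Polynomial.C (R := K)) hek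
    simp only [Polynomial.C_add, Polynomial.C_mul, Polynomial.C_0] at h5
    linear_combination Polynomial.X * h5
  have hWz : aeval z W1 ≠ 0 := by
    intro h0
    apply hW
    have h5 := congrArg (Polynomial.eval 0) h0
    rw [eval_cc, Polynomial.eval_zero] at h5
    rw [← h5]
    congr 2
    funext i
    rw [hz]
    simp
  obtain ⟨x, hx⟩ : ∃ x : Fin 3 → Polynomial K, x = fun i => aeval z (H i) := ⟨_, rfl⟩
  have hxG : ∀ i, aeval x (G i) = aeval z W1 * z i := by
    intro i
    rw [hx, ← aeval_comp, hGH i, map_mul, aeval_X]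
  have hxl : ∀ k, aeval x (aeval G (l k)) = aeval z W1 * Polynomial.C (eval ys (l k)) := by
    intro k
    rw [aeval_comp]
    have : (fun i => aeval x (G i)) = fun i => aeval z W1 * z i := by
      funext i
      exact hxG i
    rw [this, hom_aeval (hp.F_hom k), pow_one, hlz]
  have hferm : Polynomial.C (γ * p - α * q) * x 0 ^ 3 + Polynomial.C (δ * p - β * q) * x 1 ^ 3 +
      Polynomial.C (-((γ + δ) * p - (α + β) * q)) * x 2 ^ 3 = 0 := by
    have h5 := congrArg (aeval x) hsix
    simp only [map_sub, map_mul, map_add, aeval_C, hxl, ← Polynomial.C_eq_algebraMap, map_zero,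
      ← hpd, ← hqd] at h5
    have h6 : aeval x (pencil (K := K) 0) = x 0 ^ 3 - x 2 ^ 3 := by simp [pencil]
    have h7 : aeval x (pencil (K := K) 1) = x 1 ^ 3 - x 2 ^ 3 := by simp [pencil]
    rw [h6, h7] at h5
    apply (mul_eq_zero.1 (show aeval z W1 * _ = 0 from ?_)).resolve_left hWz
    simp only [Polynomial.C_sub, Polynomial.C_mul, Polynomial.C_neg, Polynomial.C_add]
    linear_combination h5
  obtain ⟨d, a, b, c, hxa, hxb, hxc⟩ := fermat_const h3 _ _ _ hA hBn
    (neg_ne_zero.2 hAB) _ _ _ hferm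
  obtain ⟨xs, hxs⟩ : ∃ xs : Fin 3 → K, xs = ![a, b, c] := ⟨_, rfl⟩
  have hxd : x = fun i => d * Polynomial.C (xs i) := by
    funext i
    rw [hxs]
    fin_cases i
    · show x 0 = d * Polynomial.C a
      rw [hxa, mul_comm]
    · show x 1 = d * Polynomial.C b
      rw [hxb, mul_comm]
    · show x 2 = d * Polynomial.C c
      rw [hxc, mul_comm]
  have hGx : ∀ i, aeval x (G i) = d ^ 3 * Polynomial.C (eval xs (G i)) := by
    intro i
    rw [hxd, hom_aeval (hHG.G_hom i)]
    congr 1
    have := MvPolynomial.aeval_algebraMap_apply (Polynomial K) xs (G i)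
    exact this
  have hprop : ∀ i j, Polynomial.C (eval xs (G j)) * z i = Polynomial.C (eval xs (G i)) * z j := by
    intro i j
    have e1 := (hxG i).symm.trans (hGx i)
    have e2 := (hxG j).symm.trans (hGx j)
    apply mul_left_cancel₀ hWz
    linear_combination Polynomial.C (eval xs (G j)) * e1 - Polynomial.C (eval xs (G i)) * e2
  have hys' : ∀ i j, eval xs (G j) * ys i = eval xs (G i) * ys j := by
    intro i j
    have := congrArg (Polynomial.eval 0) (hprop i j)
    rw [hz] at this
    simpa using this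
  have hee' : ∀ i j, eval xs (G j) * e i = eval xs (G i) * e j := by
    intro i j
    have := congrArg (Polynomial.eval 1) (hprop i j)
    rw [hz] at this
    simp at this
    linear_combination this - hys' i j
  obtain ⟨j, hj⟩ : ∃ j, eval xs (G j) ≠ 0 := by
    by_contra hcon
    push Not at hcon
    apply he
    funext i
    have e1 := (hxG i).symm.trans (hGx i)
    rw [hcon i, Polynomial.C_0, mul_zero] at e1
    have e2 := (mul_eq_zero.1 e1).resolve_left hWz
    rw [hz] at e2
    have e3 := congrArg (fun r => Polynomial.coeff r 1) e2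
    simpa [Polynomial.coeff_C] using e3
  have hej : e j ≠ 0 := by
    intro h0
    apply he
    funext i
    have := hee' i j
    rw [h0, mul_zero] at this
    exact (mul_eq_zero.1 this).resolve_left hj
  have hyse : ys = (ys j / e j) • e := by
    funext i
    rw [Pi.smul_apply, smul_eq_mul, div_mul_eq_mul_div, eq_div_iff hej]
    apply mul_left_cancel₀ hj
    linear_combination (e j) * hys' i j - (ys j) * hee' i j
  apply hA
  have e1 : p = 0 := by rw [hpd, hyse, hom_eval hl0, he0, mul_zero]
  have e2 : q = 0 := by rw [hqd, hyse, hom_eval hl1, he1, mul_zero]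
  rw [e1, e2]
  ring

/-! ### The curve -/

theorem samePoint_of_cross {n : ℕ} {x w : Fin n → K} (hx : x ≠ 0) (hw : w ≠ 0)
    (h : ∀ i j, x i * w j = x j * w i) : SamePoint x w := by
  obtain ⟨i, hi⟩ : ∃ i, x i ≠ 0 := by
    by_contra hcon
    push Not at hcon
    exact hx (funext hcon)
  have hw' : w = (w i / x i) • x := by
    funext j
    rw [Pi.smul_apply, smul_eq_mul, div_mul_eq_mul_div, eq_div_iff hi]
    linear_combination h i j
  refine ⟨w i / x i, ?_, hw'⟩
  intro h0
  rw [h0, zero_smul] at hw'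
  exact hw hw'

open Pool.Agent.X316.CC

theorem linear_irreducible (z : K) : Irreducible (X 0 - C z * X 2 : MvPolynomial (Fin 3) K) := by
  have h := irreducible_mul_X_add (1 : MvPolynomial (Fin 3) K) (- (C z * X 2)) 0 one_ne_zero
    (by simp) (by
      intro h1
      have h2 : (0 : Fin 3) ∈ (C z * X 2 : MvPolynomial (Fin 3) K).vars := by
        simpa [vars_neg] using h1
      have h3 := vars_mul _ _ h2
      simp [vars_C] at h3) isRelPrime_one_left
  rw [one_mul, ← sub_eq_add_neg] at h
  exact h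

theorem linear_relPrime (z : K) :
    IsRelPrime (X 0 - C z * X 2 : MvPolynomial (Fin 3) K) (X 1 ^ 3 - X 2 ^ 3) := by
  rw [(linear_irreducible z).isRelPrime_iff_not_dvd]
  rintro ⟨R, hR⟩
  have h := congrArg (eval ![z, 0, 1]) hR
  simp at h

theorem exists_z [IsAlgClosed K] : ∃ z : K, z ^ 2 + z + 1 = 0 := by
  obtain ⟨z, hz⟩ := IsAlgClosed.exists_root
    (Polynomial.X ^ 2 + Polynomial.X + 1 : Polynomial K) (by
      have : (Polynomial.X ^ 2 + Polynomial.X + 1 : Polynomial K).degree = 2 := by
        compute_degree!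
      rw [this]
      exact two_ne_zero)
  exact ⟨z, by simpa [Polynomial.IsRoot] using hz⟩

theorem pencil_relPrime [IsAlgClosed K] :
    IsRelPrime (pencil (K := K) 0) (pencil (K := K) 1) := by
  obtain ⟨z, hz⟩ := exists_z (K := K)
  have hfac : (X 0 ^ 3 - X 2 ^ 3 : MvPolynomial (Fin 3) K) =
      (X 0 - C 1 * X 2) * (X 0 - C z * X 2) * (X 0 - C (-1 - z) * X 2) := by
    have hC := congrArg (C (σ := Fin 3)) hz
    simp only [C_add, C_pow, C_1, C_0] at hC
    simp only [C_sub, C_neg, C_1]
    linear_combination ((X 0 * X 2 ^ 2) - X 2 ^ 3) * hC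
  show IsRelPrime (X 0 ^ 3 - X 2 ^ 3 : MvPolynomial (Fin 3) K) (X 1 ^ 3 - X 2 ^ 3)
  rw [hfac]
  exact IsRelPrime.mul_left (IsRelPrime.mul_left (linear_relPrime 1)
    (linear_relPrime z)) (linear_relPrime (-1 - z))

theorem cc_ne (h3 : (3 : K) ≠ 0) (t : K) : (fun i => (cc (K := K) i).eval t) ≠ 0 := by
  intro h
  obtain ⟨r, s, hrs⟩ := cc_coprime h3
  have h0 : (cc (K := K) 0).eval t = 0 := congrFun h 0
  have h2 : (cc (K := K) 2).eval t = 0 := congrFun h 2
  have := congrArg (Polynomial.eval t) hrs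
  simp [h0, h2] at this

theorem cc_pencil' : aeval (cc (K := K)) (pencil (K := K) 0) =
    Polynomial.X * aeval (cc (K := K)) (pencil (K := K) 1) := by
  simp only [pencil, Matrix.cons_val_zero, Matrix.cons_val_one, map_sub, map_pow, aeval_X]
  exact cc_pencil

theorem cc_pencil_ne [IsAlgClosed K] (h3 : (3 : K) ≠ 0) :
    aeval (cc (K := K)) (pencil (K := K) 1) ≠ 0 := by
  have hp1 : aeval (cc (K := K)) (pencil (K := K) 1) = cc 1 ^ 3 - cc 2 ^ 3 := by
    show aeval (cc (K := K)) (X 1 ^ 3 - X 2 ^ 3) = _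
    simp
  rw [hp1]
  intro h
  obtain ⟨z, hz⟩ := exists_z (K := K)
  have hC := congrArg Polynomial.C hz
  simp only [Polynomial.C_add, Polynomial.C_pow, Polynomial.C_1, Polynomial.C_0] at hC
  have hfac : ((cc 1 : Polynomial K) - cc 2) * ((cc 1 : Polynomial K) - Polynomial.C z * cc 2) *
      ((cc 1 : Polynomial K) - (-1 - Polynomial.C z) * cc 2) = 0 := by
    rw [← h]
    linear_combination (-((cc 1 : Polynomial K) * cc 2 ^ 2) + cc 2 ^ 3) * hC
  apply cc_not_prop h3
  rcases mul_eq_zero.1 hfac with h1 | h1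
  · rcases mul_eq_zero.1 h1 with h1 | h1
    · exact ⟨1, by rw [Polynomial.C_1, one_mul]; exact sub_eq_zero.1 h1⟩
    · exact ⟨z, sub_eq_zero.1 h1⟩
  · refine ⟨-1 - z, ?_⟩
    rw [Polynomial.C_sub, Polynomial.C_neg, Polynomial.C_1]
    exact sub_eq_zero.1 h1

/-- composition of the binary forms with the pencil along the section -/
theorem aeval_U_pencil (i : Fin 3) : aeval (cc (K := K)) (aeval (pencil (K := K)) (U (K := K) i)) =
    aeval (cc (K := K)) (pencil (K := K) 1) ^ 8 * cc i := by
  rw [aeval_comp]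
  have h : (fun k => aeval (cc (K := K)) (pencil (K := K) k)) = fun k =>
      aeval (cc (K := K)) (pencil (K := K) 1) * ![(Polynomial.X : Polynomial K), 1] k := by
    funext k
    fin_cases k
    · show aeval (cc (K := K)) (pencil (K := K) 0) = _ * Polynomial.X
      rw [cc_pencil', mul_comm]
    · show aeval (cc (K := K)) (pencil (K := K) 1) = _ * 1
      rw [mul_one]
  rw [h, hom_aeval (U_hom (K := K) i), aeval_U]

/-- values of the binary forms -/
theorem eval_U_affine (i : Fin 3) (t : Fin 2 → K) (ht : t 1 = 1) :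
    eval t (U (K := K) i) = (cc i).eval (t 0) := by
  rw [← aeval_U, eval_cc]
  congr 2
  funext k
  fin_cases k
  · simp
  · simpa using ht

theorem eval_U_inf (i : Fin 3) (t : Fin 2 → K) (ht : t 1 = 0) :
    eval t (U (K := K) i) = ((co i 8 : ℤ) : K) * t 0 ^ 8 := by
  rw [U, map_sum, Finset.sum_eq_single (8 : Fin 9)]
  · simp
  · intro j _ hj
    have hj' : 8 - (j : ℕ) ≠ 0 := by
      have h1 := j.2
      have h2 : (j : ℕ) ≠ 8 := fun h => hj (Fin.ext h)
      omega
    simp [ht, hj']
  · intro h
    exact absurd (Finset.mem_univ _) h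

theorem val_U_ne (h3 : (3 : K) ≠ 0) (t : Fin 2 → K) (ht : t ≠ 0) : val (U (K := K)) t ≠ 0 := by
  by_cases h1 : t 1 = 0
  · intro h
    have h2 := congrFun h 2
    rw [val, eval_U_inf 2 t h1] at h2
    have h4 : ((co 2 8 : ℤ) : K) = -1 := by simp [co]
    rw [h4] at h2
    apply ht
    have h5 : t 0 = 0 := by
      have : t 0 ^ 8 = 0 := by
        have h6 : (-1 : K) * t 0 ^ 8 = 0 := h2
        linear_combination -h6
      exact pow_eq_zero_iff (by norm_num) |>.1 this
    funext k
    fin_cases k
    · exact h5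
    · exact h1
  · intro h
    apply cc_ne h3 (t 0 / t 1)
    funext i
    have h2 : eval ((t 1)⁻¹ • t) (U (K := K) i) = 0 := by
      rw [hom_eval (U_hom (K := K) i)]
      have : eval t (U (K := K) i) = 0 := congrFun h i
      rw [this, mul_zero]
    rw [eval_U_affine i _ (by simp [h1])] at h2
    rw [Pi.zero_apply, ← h2]
    congr 1
    simp
    field_simp

/-- **A curve parameterizable by cubics outside `𝒮`.** Over every algebraically closed field of
characteristic different from `3` there is a plane curve parameterizable by cubics which does not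
belong to `𝒮`. -/
theorem result {K : Type*} [Field K] [IsAlgClosed K] (h3 : (3 : K) ≠ 0) :
    ∃ E : MvPolynomial (Fin 3) K, IsPlaneCurve E ∧ Parameterizable E 3 ∧ ¬ InS E := by
  have hc2 : (cc 2 : Polynomial K) ≠ 0 := by
    intro h
    have := natDegree_cc_two (K := K)
    rw [h, Polynomial.natDegree_zero] at this
    norm_num at this
  -- forms of small degree do not vanish on the section
  have hB : ∀ (P : MvPolynomial (Fin 3) K) (m : ℕ), P.IsHomogeneous m → m < 8 →
      aeval (cc (K := K)) P = 0 → P = 0 := by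
    intro P m hP hm h0
    exact degree_bound (cc (K := K)) 8 (cc_coprime h3) (by norm_num) natDegree_cc_two.ge
      (pencil (K := K) 0) (pencil (K := K) 1) 3
      (pencil_hom (K := K) 0) (pencil_hom (K := K) 1) cc_pencil' (cc_pencil_ne h3) P m hP hm h0
  -- a form vanishing on the section
  let P0 : MvPolynomial (Fin 3) K := X 0 * aeval (pencil (K := K)) (U (K := K) 2) -
    X 2 * aeval (pencil (K := K)) (U (K := K) 0)
  have hUp : ∀ i, (aeval (pencil (K := K)) (U (K := K) i)).IsHomogeneous 24 := fun i =>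
    hom_comp (U_hom (K := K) i) pencil_hom
  have hcross : ∀ i j : Fin 3, (X i * aeval (pencil (K := K)) (U (K := K) j) -
      X j * aeval (pencil (K := K)) (U (K := K) i)).IsHomogeneous 25 := by
    intro i j
    exact ((isHomogeneous_X K i).mul (hUp j)).sub ((isHomogeneous_X K j).mul (hUp i))
  have hcross0 : ∀ i j : Fin 3, aeval (cc (K := K)) (X i * aeval (pencil (K := K)) (U (K := K) j) -
      X j * aeval (pencil (K := K)) (U (K := K) i)) = 0 := by
    intro i j
    rw [map_sub, map_mul, map_mul, aeval_X, aeval_X, aeval_U_pencil, aeval_U_pencil]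
    ring
  have hP0 : P0 ≠ 0 := by
    intro h
    have h1 := congrArg (eval ![(1 : K), 0, 0]) h
    simp only [P0, map_sub, map_mul, eval_X, eval_aeval, map_zero] at h1
    have h2 : val (pencil (K := K)) ![(1 : K), 0, 0] = ![1, 0] := by
      funext k
      fin_cases k <;> simp [val, pencil]
    rw [h2, eval_U_inf 2 _ (by simp), eval_U_inf 0 _ (by simp)] at h1
    simp [co] at h1
  obtain ⟨E, m, hEm, hEi, hE0, hdiv⟩ := exists_equation (cc (K := K)) hc2 (cc_not_prop h3)
    P0 hP0 ((Phi_eq_zero_iff (cc (K := K)) (hcross 0 2)).2 (hcross0 0 2))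
  refine ⟨E, ⟨⟨m, hEm⟩, hEi⟩, ⟨pencil, U, ?_⟩, not_inS h3 cc E hE0 hdiv hB (cc_ne h3) cc_pencil'
    (cc_pencil_ne h3)⟩
  have hUE : aeval (U (K := K)) E = 0 := by
    apply dehom (hom_comp hEm U_hom)
    intro t ht
    rw [eval_aeval]
    have h1 : val (U (K := K)) t = fun i => (cc i).eval (t 0) := by
      funext i
      exact eval_U_affine i t ht
    rw [h1, ← eval_cc, hE0, Polynomial.eval_zero]
  refine
    { F_hom := pencil_hom
      F_rel := pencil_relPrime
      u_hom := ⟨8, U_hom⟩
      u_base := val_U_ne h3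
      u_mem := fun t => by rw [← eval_aeval, hUE, map_zero]
      defined := ?_
      right_inv := ?_
      left_inv := ?_ }
  · obtain ⟨t, ht⟩ : ∃ t, (aeval (cc (K := K)) (pencil (K := K) 1)).eval t ≠ 0 := by
      by_contra hcon
      push Not at hcon
      exact cc_pencil_ne h3 (Polynomial.funext fun t => by rw [hcon t, Polynomial.eval_zero])
    refine ⟨fun i => (cc i).eval t, cc_ne h3 t, ?_, ?_⟩
    · rw [← eval_cc, hE0, Polynomial.eval_zero]
    · intro h
      apply ht
      rw [eval_cc]
      exact congrFun h 1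
  · intro x hx hxE hFx
    apply samePoint_of_cross hx (val_U_ne h3 _ hFx)
    intro i j
    obtain ⟨R, hR⟩ := hdiv _ 25 (hcross i j) (hcross0 i j)
    have h1 := congrArg (eval x) hR
    rw [map_mul, hxE, zero_mul, map_sub, map_mul, map_mul, eval_X, eval_X, eval_aeval,
      eval_aeval] at h1
    exact sub_eq_zero.1 h1
  · intro t ht hFt
    have hD : (X 0 * aeval (U (K := K)) (pencil (K := K) 1) -
        X 1 * aeval (U (K := K)) (pencil (K := K) 0) : MvPolynomial (Fin 2) K) = 0 := by
      have hh : (X 0 * aeval (U (K := K)) (pencil (K := K) 1) -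
        X 1 * aeval (U (K := K)) (pencil (K := K) 0) : MvPolynomial (Fin 2) K).IsHomogeneous 25 :=
        ((isHomogeneous_X K 0).mul (hom_comp (pencil_hom (K := K) 1) U_hom)).sub
          ((isHomogeneous_X K 1).mul (hom_comp (pencil_hom (K := K) 0) U_hom))
      apply dehom hh
      intro s hs
      have hs1 : s 1 = 1 := hs
      have h1 : val (U (K := K)) s = fun i => (cc i).eval (s 0) := by
        funext i
        exact eval_U_affine i s hs
      rw [map_sub, map_mul, map_mul, eval_X, eval_X, eval_aeval, eval_aeval, h1, ← eval_cc,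
        ← eval_cc, cc_pencil', hs1, Polynomial.eval_mul, Polynomial.eval_X]
      ring
    have h1 := congrArg (eval t) hD
    rw [map_sub, map_mul, map_mul, eval_X, eval_X, eval_aeval, eval_aeval, map_zero] at h1
    apply samePoint_of_cross ht hFt
    have key : t 0 * val (pencil (K := K)) (val U t) 1 = t 1 * val (pencil (K := K)) (val U t) 0 :=
      sub_eq_zero.1 h1
    intro i j
    fin_cases i <;> fin_cases j
    · ring
    · exact key
    · exact key.symm
    · ring

end Pool.Agent.Results.MP_87683a_ag.CubicPencilNotCremona
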